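import Pool.Agent.Q173.HS.Core

/-!
# The Hopf conjecture on the sign of the Euler characteristic for almost hyperbolic manifolds
-/

set_option autoImplicit false

open Pool.Agent.Q173.HS

namespace Pool.Agent.Results.MP_5a30bb_gt.AlmostHyperbolic

universe u

theorem result {V : Type u} (G : Data V) (hG : G.IsKnown) :
    (∀ (n₀ m : ℕ) (M : V), G.dim M = 2 * n₀ → 1 ≤ m → ∃ M', G.dim M' = 2 * (n₀ + m) ∧
      G.scal M' ≤ -(2 * ((n₀ + m : ℕ) : ℝ) * (2 * ((n₀ + m : ℕ) : ℝ) - 1) *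
        (1 - (4 * n₀ : ℕ) / ((n₀ + m : ℕ) : ℝ))) ∧
      (-1) ^ (n₀ + m) * (G.chi M' : ℝ) / G.vol M' =
        (-1) ^ n₀ * (G.chi M : ℝ) / G.vol M * hyp m) ∧
    (∀ n j : ℕ, j ≤ n → 1 ≤ n → hyp n * (Real.pi / n) ^ j ≤ hyp (n - j)) ∧
    (G.Hopf ↔ ∀ K B : ℕ, ∃ n, B ≤ n ∧ G.Approx n K) :=
  ⟨fun _ _ _ h1 h2 => hG.product h1 h2, hyp_le, hG.hopf_iff⟩

end Pool.Agent.Results.MP_5a30bb_gt.AlmostHyperbolic
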