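import Mathlib

/-!
# Euler characteristics of nonpositively curved manifolds and products with hyperbolic manifolds
-/

set_option autoImplicit false

namespace Pool.Agent.Q173.HS

open scoped Nat

universe u

/-- Data of closed Riemannian manifolds with nonpositive sectional curvature and curvature operator
at least `-1`. -/
structure Data (V : Type u) where
  /-- the dimension -/
  dim : V → ℕ
  /-- the Euler characteristic -/
  chi : V → ℤ
  /-- the volume -/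
  vol : V → ℝ
  /-- the maximum of the scalar curvature -/
  scal : V → ℝ
  /-- Riemannian products -/
  prod : V → V → V

/-- The number `(2 n - 1)‼ / (2 π) ^ n = 2 / vol (S ^ (2 n))`, the absolute value of `χ / vol` for
hyperbolic manifolds of dimension `2 n`. -/
noncomputable def hyp (n : ℕ) : ℝ := ((2 * n - 1)‼ : ℕ) / (2 * Real.pi) ^ n

namespace Data

variable {V : Type u} (G : Data V)

/-- Known properties. -/
structure IsKnown : Prop where
  dim_prod : ∀ M N, G.dim (G.prod M N) = G.dim M + G.dim N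
  chi_prod : ∀ M N, G.chi (G.prod M N) = G.chi M * G.chi N
  vol_prod : ∀ M N, G.vol (G.prod M N) = G.vol M * G.vol N
  scal_prod : ∀ M N, G.scal (G.prod M N) = G.scal M + G.scal N
  vol_pos : ∀ M, 0 < G.vol M
  scal_le : ∀ M, G.scal M ≤ 0
  /-- closed hyperbolic manifolds and the theorem of Gauss and Bonnet -/
  hyperbolic : ∀ m : ℕ, 1 ≤ m → ∃ H, G.dim H = 2 * m ∧ G.scal H = -(2 * m * (2 * m - 1)) ∧
    (-1) ^ m * (G.chi H : ℝ) = hyp m * G.vol H

/-- The Hopf inequality for all manifolds of even dimension. -/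
def Hopf : Prop := ∀ (n : ℕ) (M : V), G.dim M = 2 * n → 0 ≤ (-1) ^ n * (G.chi M : ℝ)

/-- The Hopf inequality in dimension `2 n` up to the error `n ^ (-K)` times the value for hyperbolic
manifolds of the same volume, for the manifolds with scalar curvature at most
`-2 n (2 n - 1) (1 - K / n)`. -/
def Approx (n K : ℕ) : Prop :=
  ∀ M, G.dim M = 2 * n → G.scal M ≤ -(2 * n * (2 * n - 1) * (1 - (K : ℝ) / n)) →
    -(hyp n * G.vol M / (n : ℝ) ^ K) ≤ (-1) ^ n * (G.chi M : ℝ)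

end Data

theorem hyp_pos (n : ℕ) : 0 < hyp n := by
  unfold hyp
  have := Nat.doubleFactorial_pos (2 * n - 1)
  have := Real.pi_pos
  positivity

theorem hyp_succ (n : ℕ) : hyp (n + 1) = hyp n * ((2 * n + 1) / (2 * Real.pi)) := by
  have hpi := Real.pi_pos
  unfold hyp
  have h : (2 * (n + 1) - 1)‼ = (2 * n + 1) * (2 * n - 1)‼ := by
    rcases n with _ | n
    · simp
    · have e1 : 2 * (n + 1 + 1) - 1 = (2 * n + 1) + 2 := by omega
      have e2 : 2 * (n + 1) - 1 = 2 * n + 1 := by omega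
      rw [e1, e2, Nat.doubleFactorial_add_two]
      ring
  rw [h]
  push_cast
  field_simp
  ring

/-- The values `hyp` in neighbouring dimensions. -/
theorem hyp_le (n j : ℕ) (hj : j ≤ n) (hn : 1 ≤ n) :
    hyp n * (Real.pi / n) ^ j ≤ hyp (n - j) := by
  have hpi := Real.pi_pos
  have hn' : (0 : ℝ) < n := by exact_mod_cast hn
  induction j with
  | zero => simp
  | succ j ih =>
    have ih := ih (by omega)
    have e : n - j = (n - (j + 1)) + 1 := by omega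
    rw [e, hyp_succ] at ih
    have h1 := hyp_pos (n - (j + 1))
    have hc : ((n - (j + 1) : ℕ) : ℝ) = n - (j + 1) := by
      rw [Nat.cast_sub hj]; push_cast; ring
    have h2 : (2 * ((n - (j + 1) : ℕ) : ℝ) + 1) / (2 * Real.pi) ≤ n / Real.pi := by
      rw [div_le_div_iff₀ (by positivity) hpi, hc]
      have : (0 : ℝ) ≤ j := Nat.cast_nonneg j
      nlinarith
    have h3 : hyp n * (Real.pi / n) ^ j ≤ hyp (n - (j + 1)) * (n / Real.pi) :=
      ih.trans (mul_le_mul_of_nonneg_left h2 h1.le)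
    rw [pow_succ, ← mul_assoc]
    have h4 : hyp n * (Real.pi / n) ^ j * (Real.pi / n) ≤
        hyp (n - (j + 1)) * (n / Real.pi) * (Real.pi / n) :=
      mul_le_mul_of_nonneg_right h3 (by positivity)
    have h5 : hyp (n - (j + 1)) * (n / Real.pi) * (Real.pi / n) = hyp (n - (j + 1)) := by
      field_simp
    rw [h5] at h4
    exact h4

namespace Data

variable {V : Type u} {G : Data V}

/-- Products of a counterexample with hyperbolic manifolds. -/
theorem IsKnown.product (hG : G.IsKnown) {n₀ m : ℕ} {M : V} (hM : G.dim M = 2 * n₀) (hm : 1 ≤ m) :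
    ∃ M', G.dim M' = 2 * (n₀ + m) ∧
      G.scal M' ≤ -(2 * ((n₀ + m : ℕ) : ℝ) * (2 * ((n₀ + m : ℕ) : ℝ) - 1) *
        (1 - (4 * n₀ : ℕ) / ((n₀ + m : ℕ) : ℝ))) ∧
      (-1) ^ (n₀ + m) * (G.chi M' : ℝ) / G.vol M' =
        (-1) ^ n₀ * (G.chi M : ℝ) / G.vol M * hyp m := by
  obtain ⟨H, h1, h2, h3⟩ := hG.hyperbolic m hm
  have hvM := hG.vol_pos M
  have hvH := hG.vol_pos H
  refine ⟨G.prod M H, by rw [hG.dim_prod, hM, h1]; ring, ?_, ?_⟩
  · rw [hG.scal_prod, h2]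
    have h4 := hG.scal_le M
    have hn : (0 : ℝ) < ((n₀ + m : ℕ) : ℝ) := by exact_mod_cast (by omega : 0 < n₀ + m)
    have h5 : 2 * ((n₀ + m : ℕ) : ℝ) * (2 * ((n₀ + m : ℕ) : ℝ) - 1) *
        (1 - (4 * n₀ : ℕ) / ((n₀ + m : ℕ) : ℝ)) =
        2 * (2 * ((n₀ + m : ℕ) : ℝ) - 1) * (((n₀ + m : ℕ) : ℝ) - 4 * n₀) := by
      field_simp
      push_cast
      ring
    rw [h5]
    push_cast
    have h6 : (0 : ℝ) ≤ n₀ := Nat.cast_nonneg _
    have h7 : (1 : ℝ) ≤ m := by exact_mod_cast hm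
    nlinarith [mul_nonneg h6 h6, mul_nonneg h6 (by linarith : (0 : ℝ) ≤ m)]
  · rw [hG.chi_prod, hG.vol_prod, pow_add]
    push_cast
    have h6 : hyp m = (-1) ^ m * (G.chi H : ℝ) / G.vol H := by
      rw [h3]; field_simp
    rw [h6]
    field_simp

/-- **Main theorem.** -/
theorem IsKnown.hopf_iff (hG : G.IsKnown) :
    G.Hopf ↔ ∀ K B : ℕ, ∃ n, B ≤ n ∧ G.Approx n K := by
  constructor
  · intro h K B
    refine ⟨B, le_rfl, fun M hM _ => ?_⟩
    have h1 := h B M hM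
    have h2 := hyp_pos B
    have h3 := hG.vol_pos M
    have : (0 : ℝ) ≤ hyp B * G.vol M / (B : ℝ) ^ K := by positivity
    linarith
  · intro h n₀ M hM
    by_contra hlt
    push Not at hlt
    have hpi := Real.pi_pos
    have hvM := hG.vol_pos M
    set c : ℝ := -((-1) ^ n₀ * (G.chi M : ℝ)) / G.vol M with hc
    have hc0 : 0 < c := div_pos (by linarith) hvM
    -- a large dimension
    obtain ⟨B, hB⟩ := exists_nat_gt (1 / (c * Real.pi ^ n₀))
    obtain ⟨n, hn, hA⟩ := h (4 * n₀ + n₀ + 1) (B + n₀ + 1)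
    obtain ⟨m, rfl⟩ : ∃ m, n = n₀ + m := ⟨n - n₀, by omega⟩
    have hm : 1 ≤ m := by omega
    obtain ⟨M', h1, h2, h3⟩ := hG.product hM hm
    have hn0 : (0 : ℝ) < ((n₀ + m : ℕ) : ℝ) := by exact_mod_cast (by omega : 0 < n₀ + m)
    have hn1 : (1 : ℝ) ≤ ((n₀ + m : ℕ) : ℝ) := by exact_mod_cast (by omega : 1 ≤ n₀ + m)
    have hv' := hG.vol_pos M'
    have h4 : G.scal M' ≤ -(2 * ((n₀ + m : ℕ) : ℝ) * (2 * ((n₀ + m : ℕ) : ℝ) - 1) *
        (1 - ((4 * n₀ + n₀ + 1 : ℕ) : ℝ) / ((n₀ + m : ℕ) : ℝ))) := by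
      refine h2.trans ?_
      have h5 : ((4 * n₀ : ℕ) : ℝ) / ((n₀ + m : ℕ) : ℝ) ≤
          ((4 * n₀ + n₀ + 1 : ℕ) : ℝ) / ((n₀ + m : ℕ) : ℝ) := by
        apply div_le_div_of_nonneg_right _ hn0.le
        exact_mod_cast (by omega)
      have h6 : (0 : ℝ) ≤ 2 * ((n₀ + m : ℕ) : ℝ) * (2 * ((n₀ + m : ℕ) : ℝ) - 1) := by
        nlinarith
      nlinarith
    have h5 := hA M' h1 h4
    -- divide by the volume
    have h6 : -(hyp (n₀ + m) / ((n₀ + m : ℕ) : ℝ) ^ (4 * n₀ + n₀ + 1)) ≤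
        (-1) ^ (n₀ + m) * (G.chi M' : ℝ) / G.vol M' := by
      rw [le_div_iff₀ hv']
      calc _ = -(hyp (n₀ + m) * G.vol M' / ((n₀ + m : ℕ) : ℝ) ^ (4 * n₀ + n₀ + 1)) := by ring
        _ ≤ _ := h5
    rw [h3] at h6
    have h7 : (-1) ^ n₀ * (G.chi M : ℝ) / G.vol M = -c := by rw [hc]; ring
    rw [h7] at h6
    have h8 := hyp_le (n₀ + m) n₀ (by omega) (by omega)
    have e : n₀ + m - n₀ = m := by omega
    rw [e] at h8
    have h9 : c * hyp m ≤ hyp (n₀ + m) / ((n₀ + m : ℕ) : ℝ) ^ (4 * n₀ + n₀ + 1) := by linarith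
    have h10 : c * (hyp (n₀ + m) * (Real.pi / ((n₀ + m : ℕ) : ℝ)) ^ n₀) ≤
        hyp (n₀ + m) / ((n₀ + m : ℕ) : ℝ) ^ (4 * n₀ + n₀ + 1) :=
      (mul_le_mul_of_nonneg_left h8 hc0.le).trans h9
    have hh := hyp_pos (n₀ + m)
    rw [le_div_iff₀ (by positivity), div_pow] at h10
    have h11 : c * (hyp (n₀ + m) * (Real.pi ^ n₀ / ((n₀ + m : ℕ) : ℝ) ^ n₀)) *
        ((n₀ + m : ℕ) : ℝ) ^ (4 * n₀ + n₀ + 1) =
        hyp (n₀ + m) * (c * Real.pi ^ n₀ * ((n₀ + m : ℕ) : ℝ) ^ (4 * n₀ + 1)) := by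
      have : ((n₀ + m : ℕ) : ℝ) ^ (4 * n₀ + n₀ + 1) =
          ((n₀ + m : ℕ) : ℝ) ^ n₀ * ((n₀ + m : ℕ) : ℝ) ^ (4 * n₀ + 1) := by ring
      rw [this]
      field_simp
    rw [h11] at h10
    have h12 : c * Real.pi ^ n₀ * ((n₀ + m : ℕ) : ℝ) ^ (4 * n₀ + 1) ≤ 1 := by
      by_contra hcon
      push Not at hcon
      nlinarith
    have h13 : ((n₀ + m : ℕ) : ℝ) ≤ ((n₀ + m : ℕ) : ℝ) ^ (4 * n₀ + 1) :=
      le_self_pow₀ hn1 (by omega)
    have h14 : (B : ℝ) < ((n₀ + m : ℕ) : ℝ) := by exact_mod_cast (by omega)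
    have h15 : (0 : ℝ) < c * Real.pi ^ n₀ := by positivity
    have h16 : c * Real.pi ^ n₀ * ((n₀ + m : ℕ) : ℝ) ≤ 1 :=
      (mul_le_mul_of_nonneg_left h13 h15.le).trans h12
    have h17 : 1 < c * Real.pi ^ n₀ * ((n₀ + m : ℕ) : ℝ) := by
      rw [div_lt_iff₀ h15] at hB
      nlinarith
    linarith

end Data

end Pool.Agent.Q173.HS
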